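import Pool.Agent.BEP.Stmts

set_option autoImplicit false

/-!
# BEP, row PTT: test functions on the product
-/

namespace Pool.Agent.BEP.H1

open Set Filter Topology MeasureTheory
open scoped InnerProductSpace ENNReal
open Pool.Agent Pool.Agent.BE01 Pool.Agent.BEG

noncomputable section

variable {d m : ℕ}

/-- `fs` as a continuous linear map. -/
def fsL (d m : ℕ) : En (d + m) →L[ℝ] En d :=
  LinearMap.toContinuousLinearMap { toFun := fs, map_add' := fs_add, map_smul' := fs_smul }

/-- `sn` as a continuous linear map. -/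
def snL (d m : ℕ) : En (d + m) →L[ℝ] En m :=
  LinearMap.toContinuousLinearMap { toFun := sn, map_add' := sn_add, map_smul' := sn_smul }

/-- `y ↦ jn y 0` as a continuous linear map. -/
def jaL (d m : ℕ) : En d →L[ℝ] En (d + m) :=
  LinearMap.toContinuousLinearMap
    { toFun := fun y => jn y 0
      map_add' := fun y y' => by rw [← jn_add, add_zero]
      map_smul' := fun c y => by rw [RingHom.id_apply, ← jn_smul, smul_zero] }

/-- `z ↦ jn 0 z` as a continuous linear map. -/
def jbL (d m : ℕ) : En m →L[ℝ] En (d + m) :=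
  LinearMap.toContinuousLinearMap
    { toFun := fun z => jn 0 z
      map_add' := fun z z' => by rw [← jn_add, add_zero]
      map_smul' := fun c z => by rw [RingHom.id_apply, ← jn_smul, smul_zero] }

theorem fsL_apply (x : En (d + m)) : fsL d m x = fs x := rfl
theorem snL_apply (x : En (d + m)) : snL d m x = sn x := rfl
theorem jaL_apply (y : En d) : jaL d m y = jn y 0 := rfl
theorem jbL_apply (z : En m) : jbL d m z = jn 0 z := rfl

theorem jn_eq (y : En d) (z : En m) : jn y z = jaL d m y + jbL d m z := by
  rw [jaL_apply, jbL_apply, ← jn_add, add_zero, zero_add]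

theorem cont_jn : Continuous (fun q : En d × En m => (jn q.1 q.2 : En (d + m))) := by
  have h : (fun q : En d × En m => (jn q.1 q.2 : En (d + m))) =
      fun q => jaL d m q.1 + jbL d m q.2 := by
    funext q; exact jn_eq _ _
  rw [h]
  exact ((jaL d m).continuous.comp continuous_fst).add ((jbL d m).continuous.comp continuous_snd)

theorem test_of {k : ℕ} {Ω K : Set (En k)} {f : En k → ℝ}
    (hf : ContDiff ℝ ((⊤ : ℕ∞) : WithTop ℕ∞) f) (hK : IsCompact K) (hKΩ : K ⊆ Ω)
    (h0 : ∀ x, x ∉ K → f x = 0) : BE01F.Test Ω f := by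
  refine ⟨hf, HasCompactSupport.intro hK h0, ?_⟩
  have h1 : tsupport f ⊆ K := by
    apply closure_minimal _ hK.isClosed
    intro x hx
    by_contra hxK
    exact hx (h0 x hxK)
  exact h1.trans hKΩ

theorem inner_split (v : En (d + m)) (y : En d) (z : En m) :
    ⟪v, jn y z⟫_ℝ = ⟪fs v, y⟫_ℝ + ⟪sn v, z⟫_ℝ := by
  have h := inner_jn (fs v) y (sn v) z
  rw [jn_fs_sn] at h
  exact h

theorem inner_split' (y : En d) (z : En m) (v : En (d + m)) :
    ⟪jn y z, v⟫_ℝ = ⟪y, fs v⟫_ℝ + ⟪z, sn v⟫_ℝ := by
  have h := inner_jn y (fs v) z (sn v)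
  rw [jn_fs_sn] at h
  exact h

theorem hasG {k : ℕ} {f : En k → ℝ} (hf : ContDiff ℝ ((⊤ : ℕ∞) : WithTop ℕ∞) f) (x : En k) :
    HasFDerivAt f (InnerProductSpace.toDual ℝ (En k) (gradient f x)) x := by
  have h1 : DifferentiableAt ℝ f x := (hf.differentiable (by simp)) x
  exact h1.hasGradientAt.hasFDerivAt

theorem ptt : PttStmt := by
  intro d m Ω1 Ω2
  refine ⟨?_, ?_⟩
  · intro ψ1 ψ2 h1 h2
    refine ⟨?_, ?_⟩
    · refine test_of (K := (fun q : En d × En m => (jn q.1 q.2 : En (d + m))) ''
        (tsupport ψ1 ×ˢ tsupport ψ2)) ?_ ?_ ?_ ?_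
      · have e1 : ContDiff ℝ ((⊤ : ℕ∞) : WithTop ℕ∞) (fun x : En (d + m) => ψ1 (fs x)) :=
          h1.1.comp (fsL d m).contDiff
        have e2 : ContDiff ℝ ((⊤ : ℕ∞) : WithTop ℕ∞) (fun x : En (d + m) => ψ2 (sn x)) :=
          h2.1.comp (snL d m).contDiff
        exact e1.mul e2
      · exact (IsCompact.prod h1.2.1 h2.2.1).image cont_jn
      · rintro _ ⟨q, ⟨hq1, hq2⟩, rfl⟩
        show fs (jn q.1 q.2) ∈ Ω1 ∧ sn (jn q.1 q.2) ∈ Ω2
        rw [fs_jn, sn_jn]
        exact ⟨h1.2.2 hq1, h2.2.2 hq2⟩
      · intro x hx
        by_cases ha : fs x ∈ tsupport ψ1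
        · by_cases hb : sn x ∈ tsupport ψ2
          · exact absurd ⟨(fs x, sn x), ⟨ha, hb⟩, jn_fs_sn x⟩ hx
          · show ψ1 (fs x) * ψ2 (sn x) = 0
            rw [image_eq_zero_of_notMem_tsupport hb, mul_zero]
        · show ψ1 (fs x) * ψ2 (sn x) = 0
          rw [image_eq_zero_of_notMem_tsupport ha, zero_mul]
    · intro x
      have e1 : HasFDerivAt (fun x : En (d + m) => ψ1 (fs x))
          ((InnerProductSpace.toDual ℝ (En d) (gradient ψ1 (fs x))).comp (fsL d m)) x :=
        (hasG h1.1 (fs x)).comp x (fsL d m).hasFDerivAt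
      have e2 : HasFDerivAt (fun x : En (d + m) => ψ2 (sn x))
          ((InnerProductSpace.toDual ℝ (En m) (gradient ψ2 (sn x))).comp (snL d m)) x :=
        (hasG h2.1 (sn x)).comp x (snL d m).hasFDerivAt
      have e3 := e1.mul e2
      apply HasGradientAt.gradient
      rw [hasGradientAt_iff_hasFDerivAt]
      refine e3.congr_fderiv ?_
      ext v
      rw [InnerProductSpace.toDual_apply_apply, inner_split', real_inner_smul_left,
        real_inner_smul_left]
      simp only [add_apply, smul_apply,
        ContinuousLinearMap.comp_apply, InnerProductSpace.toDual_apply_apply, smul_eq_mul,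
        fsL_apply, snL_apply]
      ring
  · intro Ψ hΨ
    refine ⟨?_, ?_⟩
    · intro z
      have hj : ∀ y : En d, (jn y z : En (d + m)) = jaL d m y + jn 0 z := fun y => by
        rw [jn_eq y z, jbL_apply]
      refine ⟨?_, ?_⟩
      · refine test_of (K := fs '' tsupport Ψ) ?_ ?_ ?_ ?_
        · have e1 : ContDiff ℝ ((⊤ : ℕ∞) : WithTop ℕ∞) (fun y : En d => (jn y z : En (d + m))) := by
            have : (fun y : En d => (jn y z : En (d + m))) = fun y => jaL d m y + jn 0 z :=
              funext hj
            rw [this]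
            exact (jaL d m).contDiff.add contDiff_const
          exact hΨ.1.comp e1
        · exact IsCompact.image hΨ.2.1 (fsL d m).continuous
        · rintro _ ⟨x, hx, rfl⟩
          exact (hΨ.2.2 hx).1
        · intro y hy
          apply image_eq_zero_of_notMem_tsupport
          intro hh
          exact hy ⟨jn y z, hh, fs_jn y z⟩
      · intro y
        have e0 : HasFDerivAt (fun y : En d => (jn y z : En (d + m))) (jaL d m) y := by
          have : (fun y : En d => (jn y z : En (d + m))) = fun y => jaL d m y + jn 0 z :=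
            funext hj
          rw [this]
          exact (jaL d m).hasFDerivAt.add_const _
        have e1 : HasFDerivAt (fun y : En d => Ψ (jn y z))
            ((InnerProductSpace.toDual ℝ (En (d + m)) (gradient Ψ (jn y z))).comp (jaL d m)) y :=
          (hasG hΨ.1 (jn y z)).comp y e0
        apply HasGradientAt.gradient
        rw [hasGradientAt_iff_hasFDerivAt]
        refine e1.congr_fderiv ?_
        ext v
        rw [InnerProductSpace.toDual_apply_apply, ContinuousLinearMap.comp_apply,
          InnerProductSpace.toDual_apply_apply, jaL_apply, inner_split, inner_zero_right, add_zero]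
    · intro y
      have hj : ∀ z : En m, (jn y z : En (d + m)) = jbL d m z + jn y 0 := fun z => by
        rw [jn_eq y z, jaL_apply]; exact add_comm _ _
      refine ⟨?_, ?_⟩
      · refine test_of (K := sn '' tsupport Ψ) ?_ ?_ ?_ ?_
        · have e1 : ContDiff ℝ ((⊤ : ℕ∞) : WithTop ℕ∞) (fun z : En m => (jn y z : En (d + m))) := by
            have : (fun z : En m => (jn y z : En (d + m))) = fun z => jbL d m z + jn y 0 :=
              funext hj
            rw [this]
            exact (jbL d m).contDiff.add contDiff_const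
          exact hΨ.1.comp e1
        · exact IsCompact.image hΨ.2.1 (snL d m).continuous
        · rintro _ ⟨x, hx, rfl⟩
          exact (hΨ.2.2 hx).2
        · intro z hz
          apply image_eq_zero_of_notMem_tsupport
          intro hh
          exact hz ⟨jn y z, hh, sn_jn y z⟩
      · intro z
        have e0 : HasFDerivAt (fun z : En m => (jn y z : En (d + m))) (jbL d m) z := by
          have : (fun z : En m => (jn y z : En (d + m))) = fun z => jbL d m z + jn y 0 :=
            funext hj
          rw [this]
          exact (jbL d m).hasFDerivAt.add_const _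
        have e1 : HasFDerivAt (fun z : En m => Ψ (jn y z))
            ((InnerProductSpace.toDual ℝ (En (d + m)) (gradient Ψ (jn y z))).comp (jbL d m)) z :=
          (hasG hΨ.1 (jn y z)).comp z e0
        apply HasGradientAt.gradient
        rw [hasGradientAt_iff_hasFDerivAt]
        refine e1.congr_fderiv ?_
        ext v
        rw [InnerProductSpace.toDual_apply_apply, ContinuousLinearMap.comp_apply,
          InnerProductSpace.toDual_apply_apply, jbL_apply, inner_split, inner_zero_right, zero_add]

end

end Pool.Agent.BEP.H1
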